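import Mathlib
import Pool.Agent.helper68.AM.SpecX

/-!
Project sl: part X (MP_d52931_gt), module XA1: the indices counted by the mediants of their nodes.
-/

set_option autoImplicit false

namespace AM

open Pool.Agent.helper72.Sq Matrix

/-- the length of the mediant of an index -/
noncomputable def XA1_h (P P' : Tri) (i : Ix) : ℝ := len (desc i.2.1 (if i.1 then P else P')).2.2

lemma XA1_set (P P' : Tri) (S : ℝ) :
    {i : Ix | XA1_h P P' i ≤ S} =
      (({true} : Set Bool) ×ˢ ({w : List Bool | len (desc w P).2.2 ≤ S} ×ˢ (Set.univ : Set (Fin 4)))) ∪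
      (({false} : Set Bool) ×ˢ ({w : List Bool | len (desc w P').2.2 ≤ S} ×ˢ (Set.univ : Set (Fin 4)))) := by
  ext ⟨ε, w, τ⟩
  cases ε <;> simp [XA1_h]

lemma XA1_count (P P' : Tri) (S : ℝ) (h : {w : List Bool | len (desc w P).2.2 ≤ S}.Finite)
    (h' : {w : List Bool | len (desc w P').2.2 ≤ S}.Finite) :
    {i : Ix | XA1_h P P' i ≤ S}.Finite ∧
    {i : Ix | XA1_h P P' i ≤ S}.ncard = 4 * ({w : List Bool | len (desc w P).2.2 ≤ S}.ncard +
      {w : List Bool | len (desc w P').2.2 ≤ S}.ncard) := by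
  have f1 : (({true} : Set Bool) ×ˢ ({w : List Bool | len (desc w P).2.2 ≤ S} ×ˢ
      (Set.univ : Set (Fin 4)))).Finite := (Set.finite_singleton _).prod (h.prod Set.finite_univ)
  have f2 : (({false} : Set Bool) ×ˢ ({w : List Bool | len (desc w P').2.2 ≤ S} ×ˢ
      (Set.univ : Set (Fin 4)))).Finite := (Set.finite_singleton _).prod (h'.prod Set.finite_univ)
  rw [XA1_set]
  refine ⟨f1.union f2, ?_⟩
  rw [Set.ncard_union_eq _ f1 f2, Set.ncard_prod, Set.ncard_prod, Set.ncard_prod, Set.ncard_prod,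
    Set.ncard_singleton, Set.ncard_singleton, Set.ncard_univ, Nat.card_eq_fintype_card,
    Fintype.card_fin]
  · ring
  · rw [Set.disjoint_left]
    rintro ⟨ε, w⟩ h1 h2
    have e1 : ε = true := h1.1
    have e2 : ε = false := h2.1
    rw [e1] at e2
    exact absurd e2 (by decide)

theorem XA1 (hXZ : XZ_stmt) (hXB : XB_stmt) (hXI : XI_stmt) (hTOT : TOT_stmt) (hXP : XP_stmt) :
    XA1_stmt := by
  intro ρ hP g hg
  set P := trTri ρ (ga, gb) with hPdef
  have hP' : Adm (Tw P) := hP.Tw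
  obtain ⟨hf, hf', b, K, hb, hK, hbK⟩ := hTOT P hP
  obtain ⟨C1, hC1⟩ := hXB P hP
  obtain ⟨C2, hC2⟩ := hXB (Tw P) hP'
  have hC1' : 0 ≤ C1 := (abs_nonneg _).trans (hC1 [])
  have hC2' : 0 ≤ C2 := (abs_nonneg _).trans (hC2 [])
  refine hXP (fun i => g * XA1_h P (Tw P) i) _ (g * (C1 + C2)) ?_ ?_
  · -- the count
    have hcount := fun S : ℝ => XA1_count P (Tw P) S (hXZ P S (hf S)).1 (hXZ (Tw P) S (hf' S)).1
    have hset : ∀ R : ℝ, {i : Ix | g * XA1_h P (Tw P) i ≤ R} = {i : Ix | XA1_h P (Tw P) i ≤ R / g} := by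
      intro R
      ext i
      simp only [Set.mem_ofPred_eq]
      rw [le_div_iff₀ hg, mul_comm]
    refine ⟨fun R => by rw [hset]; exact (hcount _).1, 4 * b / g ^ 2, 
      4 * K / g + 8 + ({i : Ix | XA1_h P (Tw P) i ≤ 1}.ncard : ℝ) + 4 * b, by positivity, ?_⟩
    intro R hR
    rw [hset]
    have hR0 : 0 < R / g := by positivity
    have hN0 : (0 : ℝ) ≤ ({i : Ix | XA1_h P (Tw P) i ≤ 1}.ncard : ℝ) := Nat.cast_nonneg _
    have e : 4 * b / g ^ 2 * R ^ 2 = 4 * (b * (R / g) ^ 2) := by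
      rw [div_pow]; ring
    rw [e]
    rcases le_or_gt 1 (R / g) with h1 | h1
    · have hz1 := abs_le.mp (hXZ P (R / g) (hf _)).2
      have hz2 := abs_le.mp (hXZ (Tw P) (R / g) (hf' _)).2
      have ht := abs_le.mp (hbK (R / g) h1)
      have hc : (({i : Ix | XA1_h P (Tw P) i ≤ R / g}.ncard : ℕ) : ℝ) =
          4 * (({w : List Bool | len (desc w P).2.2 ≤ R / g}.ncard : ℝ) +
      ({w : List Bool | len (desc w (Tw P)).2.2 ≤ R / g}.ncard : ℝ)) := by
        rw [(hcount (R / g)).2]; push_cast; ring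
      rw [hc]
      have h8 : 8 ≤ 8 * R := by linarith
      have hN : 0 ≤ ({i : Ix | XA1_h P (Tw P) i ≤ 1}.ncard : ℝ) * R := by positivity
      have hbR : 0 ≤ 4 * b * R := by positivity
      have hKR : 4 * (K * (R / g)) = 4 * K / g * R := by ring
      rw [abs_le]
      constructor
      · nlinarith [hz1.1, hz2.1, ht.1]
      · nlinarith [hz1.2, hz2.2, ht.2]
    · have hmono : ({i : Ix | XA1_h P (Tw P) i ≤ R / g}.ncard : ℝ) ≤
          ({i : Ix | XA1_h P (Tw P) i ≤ 1}.ncard : ℝ) := by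
        have : {i : Ix | XA1_h P (Tw P) i ≤ R / g}.ncard ≤ {i : Ix | XA1_h P (Tw P) i ≤ 1}.ncard :=
          Set.ncard_le_ncard (fun i hi => le_trans hi h1.le) (hcount 1).1
        exact_mod_cast this
      have h0 : (0 : ℝ) ≤ ({i : Ix | XA1_h P (Tw P) i ≤ R / g}.ncard : ℝ) := Nat.cast_nonneg _
      have hsq : (R / g) ^ 2 ≤ 1 := by nlinarith
      have hb4 : 4 * (b * (R / g) ^ 2) ≤ 4 * b := by nlinarith
      have hb0 : 0 ≤ 4 * (b * (R / g) ^ 2) := by positivity
      have hKg : 0 ≤ 4 * K / g := by positivity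
      have hX : ({i : Ix | XA1_h P (Tw P) i ≤ 1}.ncard : ℝ) + 4 * b ≤
          (4 * K / g + 8 + ({i : Ix | XA1_h P (Tw P) i ≤ 1}.ncard : ℝ) + 4 * b) * R := by
        have : ({i : Ix | XA1_h P (Tw P) i ≤ 1}.ncard : ℝ) + 4 * b ≤
          (4 * K / g + 8 + ({i : Ix | XA1_h P (Tw P) i ≤ 1}.ncard : ℝ) + 4 * b) := by linarith
        refine this.trans ?_
        exact le_mul_of_one_le_right (by positivity) hR
      rw [abs_le]
      constructor <;> linarith
  · rintro ⟨ε, w, τ⟩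
    have hI := hXI ρ hP ε w τ
    simp only at hI
    obtain ⟨-, hev, hodd⟩ := hI
    have hsum : lx ρ (ε, w, τ) + ly ρ (ε, w, τ) =
        len (desc w (if ε then P else Tw P)).1 + len (desc w (if ε then P else Tw P)).2.1 := by
      rcases Nat.mod_two_eq_zero_or_one τ.val with h | h
      · rw [(hev h).1, (hev h).2]
      · rw [(hodd h).1, (hodd h).2, add_comm]
    have hb : |len (desc w (if ε then P else Tw P)).1 + len (desc w (if ε then P else Tw P)).2.1 -
        len (desc w (if ε then P else Tw P)).2.2| ≤ C1 + C2 := by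
      cases ε
      · exact (hC2 w).trans (by linarith)
      · exact (hC1 w).trans (by linarith)
    show |g * (lx ρ (ε, w, τ) + ly ρ (ε, w, τ)) - g * XA1_h P (Tw P) (ε, w, τ)| ≤ g * (C1 + C2)
    rw [← mul_sub, abs_mul, abs_of_pos hg, hsum]
    exact mul_le_mul_of_nonneg_left hb hg.le

end AM
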